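import Pool.Agent.Helper45.U4.St1

set_option autoImplicit false

open Module Classical
open scoped LinearAlgebra.Projectivization

namespace Pool.Agent.Helper10.U4

open Pool.Agent.Helper45.U4 Pool.Agent.Helper53.PB

/-- The functionals of a linearly independent family are linearly independent. -/
theorem li_f {F V : Type} [Field F] [AddCommGroup V] [Module F V] (φ : Form F V)
    (h3 : ∀ c : F, c ≠ 0 → c ^ 3 = 1)
    (ha : ∀ x y z, φ.f (x + y) z = φ.f x z + φ.f y z)
    (hs : ∀ (c : F) x y, φ.f (c • x) y = c ^ 2 * φ.f x y)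
    (hn : ∀ x, (∀ y, φ.f x y = 0) → x = 0)
    {ι : Type} (u : ι → V) (hu : LinearIndependent F u) :
    LinearIndependent F (fun i => φ.f (u i)) := by
  have h4 : ∀ c : F, (c ^ 2) ^ 2 = c := by
    intro c
    by_cases hc : c = 0
    · rw [hc]; simp
    · have := h3 c hc
      calc (c ^ 2) ^ 2 = c ^ 3 * c := by ring
        _ = c := by rw [this, one_mul]
  have h0 : ∀ z, φ.f 0 z = 0 := by
    intro z
    have := hs 0 0 z
    rw [smul_zero] at this
    rw [this]
    simp
  rw [linearIndependent_iff'] at hu ⊢
  intro s g hg i hi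
  have key : ∀ (t : Finset ι) (z : V), φ.f (∑ j ∈ t, (g j ^ 2) • u j) z = ∑ j ∈ t, g j * φ.f (u j) z := by
    intro t z
    induction t using Finset.induction_on with
    | empty => simp [h0]
    | insert a t hat ih =>
      rw [Finset.sum_insert hat, Finset.sum_insert hat, ha, hs, ih, h4]
  have h5 : ∑ j ∈ s, (g j ^ 2) • u j = 0 := by
    apply hn
    intro z
    rw [key]
    have h6 := LinearMap.congr_fun hg z
    simpa [LinearMap.sum_apply] using h6
  have h7 := hu s (fun j => g j ^ 2) h5 i hi
  have h8 := h4 (g i)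
  rw [h7] at h8
  simpa using h8.symm

theorem hHSX (h1 : StHF) (h2 : StONB) : StHSX := by
  intro F V _ _ _ _ φ r hk hc hd
  obtain ⟨⟨ω, hω⟩, h3, ha, hs, hq, hsi, h01, hn⟩ := h1 φ hk hc
  obtain ⟨e, he, -, -⟩ := h2 φ (2 * r) hk hc hd
  -- totally singular subspaces are small
  have hA : ∀ U : Submodule F V, φ.toPolar.TS U → finrank F U ≤ r := by
    intro U hU
    have b := finBasis F U
    have hb1 : LinearIndependent F (fun i => ((b i : U) : V)) :=
      b.linearIndependent.map' U.subtype (Submodule.ker_subtype U)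
    have hb2 := li_f φ h3 ha hs hn _ hb1
    have hb3 : ∀ i, φ.f ((b i : U) : V) ∈ U.dualAnnihilator := by
      intro i
      rw [Submodule.mem_dualAnnihilator]
      intro y hy
      exact hU.2 _ (b i).2 y hy
    have hb4 : LinearIndependent F
        (fun i => (⟨φ.f ((b i : U) : V), hb3 i⟩ : U.dualAnnihilator)) := by
      apply LinearIndependent.of_comp (U.dualAnnihilator.subtype)
      exact hb2
    have hb5 := hb4.fintype_card_le_finrank
    rw [Fintype.card_fin] at hb5
    have hb6 := Subspace.finrank_add_finrank_dualAnnihilator_eq U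
    omega
  -- a totally singular subspace of dimension `r`
  let w : Fin r → V := fun i => e ⟨2 * i.1, by have := i.2; omega⟩ + e ⟨2 * i.1 + 1, by have := i.2; omega⟩
  have hew : ∀ i j : Fin r, φ.f (e ⟨2 * i.1, by have := i.2; omega⟩) (w j) = if i = j then 1 else 0 := by
    intro i j
    change φ.f _ (_ + _) = _
    rw [map_add, he, he]
    by_cases hij : i = j
    · subst hij
      simp
    · have h1 : i.1 ≠ j.1 := fun h => hij (Fin.ext h)
      rw [if_neg, if_neg, if_neg hij, add_zero]
      · rw [Fin.ext_iff]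
        change ¬ (2 * i.1 = 2 * j.1 + 1)
        omega
      · rw [Fin.ext_iff]
        change ¬ (2 * i.1 = 2 * j.1)
        omega
  have hew' : ∀ i j : Fin r, φ.f (e ⟨2 * i.1 + 1, by have := i.2; omega⟩) (w j) = if i = j then 1 else 0 := by
    intro i j
    change φ.f _ (_ + _) = _
    rw [map_add, he, he]
    by_cases hij : i = j
    · subst hij
      simp
    · have h1 : i.1 ≠ j.1 := fun h => hij (Fin.ext h)
      rw [if_neg, if_neg, if_neg hij, add_zero]
      · rw [Fin.ext_iff]
        change ¬ (2 * i.1 + 1 = 2 * j.1 + 1)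
        omega
      · rw [Fin.ext_iff]
        change ¬ (2 * i.1 + 1 = 2 * j.1)
        omega
  have hww : ∀ i j : Fin r, φ.f (w i) (w j) = 0 := by
    intro i j
    have : φ.f (w i) (w j) = φ.f (e ⟨2 * i.1, by have := i.2; omega⟩) (w j)
        + φ.f (e ⟨2 * i.1 + 1, by have := i.2; omega⟩) (w j) := ha _ _ _
    rw [this, hew, hew']
    exact hω.two _
  have hwl : LinearIndependent F w := by
    rw [linearIndependent_iff']
    intro s g hg i hi
    have h5 := congrArg (φ.f (e ⟨2 * i.1, by have := i.2; omega⟩)) hg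
    rw [map_sum, map_zero] at h5
    have h6 : ∑ j ∈ s, φ.f (e ⟨2 * i.1, by have := i.2; omega⟩) (g j • w j) = g i := by
      rw [Finset.sum_eq_single i]
      · rw [map_smul, hew]
        simp
      · intro j _ hj
        rw [map_smul, hew, if_neg (Ne.symm hj), smul_zero]
      · intro h
        exact absurd hi h
    rw [← h6]
    exact h5
  have hz : ∀ x ∈ Submodule.span F (Set.range w), ∀ y ∈ Submodule.span F (Set.range w),
      φ.toPolar.f x y = 0 := by
    intro x hx y hy
    refine Polar.perp_span (P := φ.toPolar) ?_ hx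
    rintro _ ⟨i, rfl⟩
    apply φ.toPolar.symm
    refine Polar.perp_span (P := φ.toPolar) ?_ hy
    rintro _ ⟨j, rfl⟩
    exact hww j i
  have hTS : φ.toPolar.TS (Submodule.span F (Set.range w)) :=
    ⟨fun x hx => (hsi x).2 (hz x hx x hx), hz⟩
  have hfr : finrank F (Submodule.span F (Set.range w)) = r := by
    rw [finrank_span_eq_card hwl, Fintype.card_fin]
  obtain ⟨W, hW, hWle⟩ := Polar.exists_gen_ge hTS
  have hWr : finrank F W = r := by
    apply le_antisymm (hA W hW.1)
    rw [← hfr]
    exact Submodule.finrank_mono hWle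
  exact ⟨hk, hc, hd, fun U hU => by rw [Polar.gen_finrank_eq hW hU, hWr]⟩

end Pool.Agent.Helper10.U4
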